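import Pool.Agent.H73.KG.Stmts2

/-!
# Project KG, module MGA: fluctuations of the fibre means and covariances
-/

set_option autoImplicit false
set_option linter.unusedSectionVars false
set_option linter.unusedVariables false

open MeasureTheory Set Filter Topology
open scoped ContDiff

namespace Pool.Agent.H73.KG

open Pool.Agent.H84 Pool.Agent.H84.Sym Pool.Agent.H84.Sym.P2x Pool.Agent.H19.KL

section one

variable {H : Type} [NormedAddCommGroup H] [InnerProductSpace ℝ H]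
    [FiniteDimensional ℝ H] [MeasurableSpace H] [BorelSpace H]

theorem MGA_int {W : H → ℝ} {t : ℝ} (h : PP W t) {F : H → ℝ} (hF : GC F) :
    Integrable F (mu W) := by
  obtain ⟨⟨C, hC⟩, _⟩ := h
  exact GC.integrable hF hC

theorem MGA_gc_li (e : H) : GC (li e) := by
  refine ⟨by unfold li; fun_prop, ‖e‖, 1, fun x => ?_⟩
  have h1 : |li e x| ≤ ‖e‖ * ‖x‖ := abs_real_inner_le_norm e x
  refine h1.trans (mul_le_mul_of_nonneg_left ?_ (norm_nonneg e))
  have := Real.add_one_le_exp ‖x‖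
  rw [one_mul]
  linarith

theorem MGA_hfd_li (e x : H) : HasFDerivAt (li e) (innerSL ℝ e) x :=
  (innerSL ℝ e).hasFDerivAt

theorem MGA_D_li (e v x : H) : D v (li e) x = inner ℝ e v := by
  unfold D
  rw [(MGA_hfd_li e x).fderiv]
  rfl

theorem MGA_cd_li (e : H) : ContDiff ℝ 1 (li e) := (innerSL ℝ e).contDiff

theorem MGA_cv_sum {W : H → ℝ} {t : ℝ} (h : PP W t) {κ : Type} [Fintype κ] (a : κ → ℝ)
    {F : κ → H → ℝ} (hF : ∀ k, GC (F k)) {V : H → ℝ} (hV : GC V) :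
    cv W (fun x => ∑ k, a k * F k x) V = ∑ k, a k * cv W (F k) V := by
  unfold cv
  have i1 : ∀ k, Integrable (fun x => a k * (F k x * V x)) (mu W) := fun k =>
    (MGA_int h ((hF k).mul hV)).const_mul _
  have i2 : ∀ k, Integrable (fun x => a k * F k x) (mu W) := fun k =>
    (MGA_int h (hF k)).const_mul _
  have e1 : (fun x => (∑ k, a k * F k x) * V x) = fun x => ∑ k, a k * (F k x * V x) := by
    funext x
    rw [Finset.sum_mul]
    exact Finset.sum_congr rfl fun k _ => by ring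
  rw [e1, integral_finsetSum _ (fun k _ => i1 k), integral_finsetSum _ (fun k _ => i2 k),
    Finset.sum_mul, ← Finset.sum_sub_distrib]
  refine Finset.sum_congr rfl fun k _ => ?_
  rw [integral_const_mul, integral_const_mul]
  ring

theorem MGA_gc_sum {κ : Type} [Fintype κ] (a : κ → ℝ) {F : κ → H → ℝ} (hF : ∀ k, GC (F k)) :
    GC (fun x => ∑ k, a k * F k x) := GC.sum fun k => (GC.const (a k)).mul (hF k)

/-- duality -/
theorem MGA_dual (hB : BASStmt H) {W : H → ℝ} {t : ℝ} (h : PP W t) {V : H → ℝ} (hV : GC V)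
    {vv A : ℝ} (hvv : cv W V V ≤ vv) (hA : 0 ≤ A) {κ : Type} [Fintype κ]
    {F : κ → H → ℝ} (hF : ∀ k, GC (F k))
    (hvar : ∀ a : κ → ℝ, cv W (fun x => ∑ k, a k * F k x) (fun x => ∑ k, a k * F k x) ≤
      A * ∑ k, a k ^ 2) : ∑ k, (cv W (F k) V) ^ 2 ≤ A * vv := by
  obtain ⟨-, -, -, h4, -⟩ := hB
  set a : κ → ℝ := fun k => cv W (F k) V with ha
  set S := ∑ k, a k ^ 2 with hS
  have hS0 : 0 ≤ S := Finset.sum_nonneg fun k _ => sq_nonneg _
  have hv0 : 0 ≤ vv := ((h4 W t h V V hV hV).2.1).trans hvv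
  have e1 : cv W (fun x => ∑ k, a k * F k x) V = S := by
    rw [MGA_cv_sum h a hF hV, hS]
    exact Finset.sum_congr rfl fun k _ => by rw [ha]; ring
  have h5 := (h4 W t h _ V (MGA_gc_sum a hF) hV).1
  rw [e1] at h5
  have h6 : S ^ 2 ≤ (A * S) * vv :=
    h5.trans (mul_le_mul (hvar a) hvv (h4 W t h V V hV hV).2.1 (mul_nonneg hA hS0))
  rcases eq_or_lt_of_le hS0 with h0 | h0
  · rw [← h0]
    exact mul_nonneg hA hv0
  · have h7 : S * S ≤ S * (A * vv) := by nlinarith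
    exact le_of_mul_le_mul_left h7 h0

theorem MGA_poin (hB : BASStmt H) {W : H → ℝ} {t : ℝ} (h : PP W t) {f : H → ℝ}
    (hf : ContDiff ℝ 1 f) (hg : Gr f) (hg' : Gr (fun x => ‖fderiv ℝ f x‖)) :
    cv W f f ≤ 1 / t * ∫ x, ‖fderiv ℝ f x‖ ^ 2 ∂(mu W) := by
  obtain ⟨-, h2, h3, -⟩ := hB
  exact h3 W t h f hf hg hg' _ (h2 W t h)

theorem MGA_pos {W : H → ℝ} {t : ℝ} (h : PP W t) : 0 < t := by
  obtain ⟨⟨C, hC⟩, _⟩ := h
  exact hC.pos

section lin

variable {κ : Type} [Fintype κ] [DecidableEq κ] (c : OrthonormalBasis κ ℝ H)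

theorem MGA_norm_sum (a : κ → ℝ) : ‖∑ k, a k • c k‖ ^ 2 = ∑ k, a k ^ 2 := by
  rw [← c.sum_sq_norm_inner_right]
  refine Finset.sum_congr rfl fun i _ => ?_
  have : inner ℝ (c i) (∑ k, a k • c k) = a i := by
    rw [inner_sum]
    simp only [inner_smul_right]
    rw [Finset.sum_eq_single i]
    · rw [real_inner_self_eq_norm_sq, c.norm_eq_one i]; ring
    · intro j _ hj
      rw [c.inner_eq_zero (Ne.symm hj), mul_zero]
    · intro h; exact absurd (Finset.mem_univ i) h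
  rw [this, Real.norm_eq_abs, sq_abs]

theorem MGA_li_sum (a : κ → ℝ) (x : H) : li (∑ k, a k • c k) x = ∑ k, a k * li (c k) x := by
  unfold li
  rw [sum_inner]
  exact Finset.sum_congr rfl fun k _ => by rw [real_inner_smul_left]

theorem MGA_var_lin (hB : BASStmt H) {W : H → ℝ} {t : ℝ} (h : PP W t) (a : κ → ℝ) :
    cv W (fun x => ∑ k, a k * li (c k) x) (fun x => ∑ k, a k * li (c k) x) ≤
      1 / t * ∑ k, a k ^ 2 := by
  obtain ⟨-, -, -, -, h5, -⟩ := hB
  have h6 := h5 W t h (∑ k, a k • c k)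
  rw [MGA_norm_sum] at h6
  have e : li (∑ k, a k • c k) = fun x => ∑ k, a k * li (c k) x :=
    funext fun x => MGA_li_sum c a x
  rw [e] at h6
  exact h6

theorem MGA_var_lin' (hB : BASStmt H) {W : H → ℝ} {t : ℝ} (h : PP W t) (a : κ → ℝ) :
    ∫ x, (∑ k, a k * (li (c k) x - mn W (c k))) ^ 2 ∂(mu W) ≤ 1 / t * ∑ k, a k ^ 2 := by
  refine le_trans (le_of_eq ?_) (MGA_var_lin c hB h a)
  obtain ⟨-, -, -, h4, -⟩ := hB
  have hg : GC (fun x => ∑ k, a k * li (c k) x) := MGA_gc_sum a fun k => MGA_gc_li (c k)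
  rw [(h4 W t h _ _ hg hg).2.2.2]
  have e : ∫ z, (∑ k, a k * li (c k) z) ∂(mu W) = ∑ k, a k * mn W (c k) := by
    rw [integral_finsetSum _ fun k _ => (MGA_int h (MGA_gc_li (c k))).const_mul _]
    exact Finset.sum_congr rfl fun k _ => by rw [integral_const_mul]; rfl
  rw [e]
  refine integral_congr_ae (Eventually.of_forall fun x => ?_)
  have e2 : ∑ k, a k * (li (c k) x - mn W (c k)) =
      (∑ k, a k * li (c k) x) - ∑ k, a k * mn W (c k) := by
    rw [← Finset.sum_sub_distrib]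
    exact Finset.sum_congr rfl fun k _ => by ring
  simp only [e2]
  ring

/-- the centred products -/
noncomputable def MGA_G (W : H → ℝ) (ij : κ × κ) (x : H) : ℝ :=
  (li (c ij.1) x - mn W (c ij.1)) * (li (c ij.2) x - mn W (c ij.2))

theorem MGA_gc_G (W : H → ℝ) (ij : κ × κ) : GC (MGA_G c W ij) :=
  ((MGA_gc_li _).sub (GC.const _)).mul ((MGA_gc_li _).sub (GC.const _))

theorem MGA_hfd_Q (W : H → ℝ) (a : κ × κ → ℝ) (x : H) :
    HasFDerivAt (fun x => ∑ ij, a ij * MGA_G c W ij x)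
      (∑ ij : κ × κ, a ij • ((li (c ij.1) x - mn W (c ij.1)) • innerSL ℝ (c ij.2) +
        (li (c ij.2) x - mn W (c ij.2)) • innerSL ℝ (c ij.1))) x := by
  refine HasFDerivAt.fun_sum fun ij _ => ?_
  exact (((MGA_hfd_li (c ij.1) x).sub_const _).mul
    ((MGA_hfd_li (c ij.2) x).sub_const _)).const_mul (a ij)

theorem MGA_fd_Q (W : H → ℝ) (a : κ × κ → ℝ) (x : H) (k : κ) :
    fderiv ℝ (fun x => ∑ ij, a ij * MGA_G c W ij x) x (c k) =
      ∑ j, (a (k, j) + a (j, k)) * (li (c j) x - mn W (c j)) := by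
  rw [(MGA_hfd_Q c W a x).fderiv, Fintype.sum_prod_type]
  simp only [sum_apply, smul_apply, add_apply, smul_eq_mul,
    innerSL_apply_apply]
  have hin : ∀ i j, inner ℝ (c i) (c j) = if i = j then (1:ℝ) else 0 := fun i j =>
    orthonormal_iff_ite.1 c.orthonormal i j
  simp only [hin, mul_add, mul_ite, mul_one, mul_zero, Finset.sum_add_distrib, add_mul]
  have s1 : ∑ i, ∑ j, (if j = k then a (i, j) * (li (c i) x - mn W (c i)) else 0) =
      ∑ i, a (i, k) * (li (c i) x - mn W (c i)) := by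
    refine Finset.sum_congr rfl fun i _ => ?_
    rw [Finset.sum_ite_eq' Finset.univ k]
    simp
  have s2 : ∑ i, ∑ j, (if i = k then a (i, j) * (li (c j) x - mn W (c j)) else 0) =
      ∑ j, a (k, j) * (li (c j) x - mn W (c j)) := by
    rw [Finset.sum_comm]
    refine Finset.sum_congr rfl fun i _ => ?_
    rw [Finset.sum_ite_eq' Finset.univ k]
    simp
  rw [s1, s2, add_comm]

theorem MGA_var_Q (hB : BASStmt H) {W : H → ℝ} {t : ℝ} (h : PP W t) (a : κ × κ → ℝ) :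
    cv W (fun x => ∑ ij, a ij * MGA_G c W ij x) (fun x => ∑ ij, a ij * MGA_G c W ij x) ≤
      4 / t ^ 2 * ∑ ij, a ij ^ 2 := by
  have ht := MGA_pos h
  set Q := fun x => ∑ ij, a ij * MGA_G c W ij x with hQ
  have hgc : GC Q := MGA_gc_sum a fun ij => MGA_gc_G c W ij
  have hcd : ContDiff ℝ 1 Q := by
    refine ContDiff.sum fun ij _ => ?_
    exact contDiff_const.mul (((MGA_cd_li _).sub contDiff_const).mul
      ((MGA_cd_li _).sub contDiff_const))
  have hn : ∀ x, ‖fderiv ℝ Q x‖ ^ 2 =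
      ∑ k, (∑ j, (a (k, j) + a (j, k)) * (li (c j) x - mn W (c j))) ^ 2 := by
    intro x
    rw [nsq_clm c]
    exact Finset.sum_congr rfl fun k _ => by rw [MGA_fd_Q c W a x k]
  have hgk : ∀ k, GC (fun x => ∑ j, (a (k, j) + a (j, k)) * (li (c j) x - mn W (c j))) :=
    fun k => MGA_gc_sum _ fun j => (MGA_gc_li _).sub (GC.const _)
  have hgr : Gr (fun x => ‖fderiv ℝ Q x‖) := by
    have h1 : Gr (fun x => 1 + ∑ k, (∑ j, (a (k, j) + a (j, k)) *
        (li (c j) x - mn W (c j))) ^ 2) :=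
      ((GC.const 1).add (GC.sum fun k => (hgk k).sq)).2
    refine Gr.of_le h1 fun x => ?_
    rw [← hn x, abs_of_nonneg (norm_nonneg _), abs_of_nonneg (by positivity)]
    nlinarith [sq_nonneg (‖fderiv ℝ Q x‖ - 1)]
  have h1 := MGA_poin hB h hcd hgc.2 hgr
  refine h1.trans ?_
  simp only [hn]
  rw [integral_finsetSum _ fun k _ => MGA_int h (hgk k).sq]
  have h2 : ∀ k, ∫ x, (∑ j, (a (k, j) + a (j, k)) * (li (c j) x - mn W (c j))) ^ 2 ∂(mu W) ≤
      1 / t * ∑ j, (a (k, j) + a (j, k)) ^ 2 := fun k => MGA_var_lin' c hB h _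
  have h3 := Finset.sum_le_sum fun k (_ : k ∈ Finset.univ) => h2 k
  have h4 : ∑ k, 1 / t * ∑ j, (a (k, j) + a (j, k)) ^ 2 ≤ 1 / t * (4 * ∑ ij, a ij ^ 2) := by
    rw [← Finset.mul_sum]
    refine mul_le_mul_of_nonneg_left ?_ (by positivity)
    have h5 : ∀ k j, (a (k, j) + a (j, k)) ^ 2 ≤ 2 * a (k, j) ^ 2 + 2 * a (j, k) ^ 2 := by
      intro k j
      nlinarith [sq_nonneg (a (k, j) - a (j, k))]
    have h6 : ∑ k, ∑ j, (a (k, j) + a (j, k)) ^ 2 ≤
        ∑ k, ∑ j, (2 * a (k, j) ^ 2 + 2 * a (j, k) ^ 2) :=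
      Finset.sum_le_sum fun k _ => Finset.sum_le_sum fun j _ => h5 k j
    refine h6.trans (le_of_eq ?_)
    simp only [Finset.sum_add_distrib, ← Finset.mul_sum]
    rw [Finset.sum_comm (f := fun k j => a (j, k) ^ 2), Fintype.sum_prod_type]
    ring
  calc 1 / t * ∑ k, ∫ x, (∑ j, (a (k, j) + a (j, k)) * (li (c j) x - mn W (c j))) ^ 2 ∂(mu W)
      ≤ 1 / t * (1 / t * (4 * ∑ ij, a ij ^ 2)) :=
        mul_le_mul_of_nonneg_left (h3.trans h4) (by positivity)
    _ = 4 / t ^ 2 * ∑ ij, a ij ^ 2 := by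
      field_simp

end lin

end one

section two

variable {E : Type} [NormedAddCommGroup E] [InnerProductSpace ℝ E]
    [FiniteDimensional ℝ E] [MeasurableSpace E] [BorelSpace E]

theorem MGA_hess {U : E → ℝ} {t : ℝ} (h : BP U t) (x : E) : ‖fderiv ℝ (fderiv ℝ U) x‖ ≤ 1 := by
  obtain ⟨⟨⟨C, hC⟩, _⟩, hup⟩ := h
  have ht := hC.pos
  exact P4bx.bilin_bound _
    (fun u v => (hC.smooth.contDiffAt.isSymmSndFDerivAt (by simp)).eq u v)
    (fun v => le_trans (by positivity) (hC.hess x v)) (fun v => by simpa using hup x v) zero_le_one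

theorem MGA_gc_D {f : E → ℝ} (hf : ContDiff ℝ 1 f) (hg' : Gr (fun x => ‖fderiv ℝ f x‖)) (e : E) :
    GC (D e f) := by
  refine ⟨(contDiff_D (m := 0) hf (by norm_num) e).continuous, ?_⟩
  have h1 : Gr (fun x => ‖fderiv ℝ f x‖ * ‖e‖) := Gr.mul hg' (Gr.of_bdd fun _ => le_rfl)
  refine Gr.of_le h1 fun x => ?_
  rw [abs_of_nonneg (a := ‖fderiv ℝ f x‖ * ‖e‖) (by positivity)]
  exact (fderiv ℝ f x).le_opNorm e

theorem MGA_cav_diff (S : Submodule ℝ E) {U f : E → ℝ} {t C : ℝ} (hU : Pot U t C)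
    (hf : ContDiff ℝ 1 f) (hfg : Gr f) (hfg' : Gr (fun x => ‖fderiv ℝ f x‖)) :
    ContDiff ℝ 1 (cav S U f) ∧
    ∀ (z ν : Sᗮ), D ν (cav S U f) z = cav S U (D (ν : E) f) z -
      (cav S U (fun x => f x * D (ν : E) U x) z - cav S U f z * cav S U (D (ν : E) U) z) := by
  have hρ0 := P4bx.rho_pos S hU
  obtain ⟨hρ1, hDρ⟩ := diff_pint S (F := fun _ => 1) hU contDiff_const (Gr.of_bdd fun _ => le_rfl)
    (by simp only [fderiv_fun_const, Pi.zero_apply, norm_zero]; exact Gr.of_bdd fun _ => le_rfl)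
  have hDρ' : ∀ z ν : Sᗮ, D ν (pint S U (fun _ => 1)) z = -pint S U (D (ν : E) U) z := by
    intro z ν
    rw [hDρ, ← P4bx.pint_neg]
    congr 1
    funext x
    simp [D]
  have hDfg : ∀ e : E, GC (D e f) := MGA_gc_D hf hfg'
  obtain ⟨hf1, hDf⟩ := diff_pint S hU hf hfg hfg'
  have hcav : cav S U f = fun z => pint S U f z * (pint S U (fun _ => 1) z)⁻¹ := by
    funext z
    rfl
  refine ⟨?_, fun z ν => ?_⟩
  · rw [hcav]
    exact hf1.mul (hρ1.inv fun z => (hρ0 z).ne')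
  · have d1 : DifferentiableAt ℝ (pint S U f) z := hf1.differentiable (by norm_num) z
    have d2' : HasFDerivAt (fun z => (pint S U (fun _ => 1) z)⁻¹)
        (-((pint S U (fun _ => 1) z) ^ 2)⁻¹ • fderiv ℝ (pint S U (fun _ => 1)) z) z :=
      (hasDerivAt_inv (hρ0 z).ne').comp_hasFDerivAt z
        (hρ1.differentiable (by norm_num) z).hasFDerivAt
    rw [hcav, D_mul d1 d2'.differentiableAt]
    have e2 : D ν (fun z => (pint S U (fun _ => 1) z)⁻¹) z =
        ((pint S U (fun _ => 1) z) ^ 2)⁻¹ * pint S U (D (ν : E) U) z := by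
      have h4 : fderiv ℝ (pint S U (fun _ => 1)) z ν = -pint S U (D (ν : E) U) z := hDρ' z ν
      simp only [D]
      rw [d2'.fderiv, smul_apply, h4]
      simp only [smul_eq_mul]
      ring
    have e3 : D ν (pint S U f) z = pint S U (D (ν : E) f) z -
          pint S U (fun x => f x * D (ν : E) U x) z := by
      rw [hDf z ν, ← P4bx.pint_sub S hU (hDfg _) (GC.mul ⟨hf.continuous, hfg⟩ (P4bx.gc_D hU _))]
    rw [e2, e3]
    unfold cav
    have := (hρ0 z).ne'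
    field_simp
    ring

variable (S : Submodule ℝ E)

theorem MGA_li_fb (e : S) (x : S) (z : Sᗮ) : li (e : E) ((x : E) + (z : E)) = li e x := by
  unfold li
  rw [inner_add_right, Submodule.inner_right_of_mem_orthogonal e.2 z.2, add_zero]
  rfl

theorem MGA_gc_sh {F : E → ℝ} (hF : GC F) (z : Sᗮ) : GC (fun x : S => F ((x : E) + (z : E))) :=
  P4bx.gc_sec S hF (z : E)

theorem MGA_cv_fb (hM : MGLStmt E) {U : E → ℝ} {t : ℝ} (hU : BP U t) (z : Sᗮ) (F G : E → ℝ) :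
    cv (fb S U z) (fun x : S => F ((x : E) + (z : E))) (fun x : S => G ((x : E) + (z : E))) =
      cav S U (fun y => F y * G y) z - cav S U F z * cav S U G z := by
  obtain ⟨-, -, m3, -⟩ := hM U t hU S
  unfold cv
  rw [← m3 z F, ← m3 z G, ← m3 z (fun y => F y * G y)]

theorem MGA_var_V (hM : MGLStmt E) {U : E → ℝ} {t : ℝ} (hU : BP U t) (z ν : Sᗮ) :
    cv (fb S U z) (fun x : S => D (ν : E) U ((x : E) + (z : E)))
      (fun x : S => D (ν : E) U ((x : E) + (z : E))) ≤ ‖ν‖ ^ 2 := by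
  rw [MGA_cv_fb S hM hU]
  have hh := MGA_hess hU
  obtain ⟨⟨⟨C, hC⟩, hp⟩, hup⟩ := hU
  have hU' : BP U t := ⟨⟨⟨C, hC⟩, hp⟩, hup⟩
  obtain ⟨m1, m2, m3, -⟩ := hM U t hU' S
  have ht := hC.pos
  have hs := (mg_spec S hC (C₂ := 1) hh ht (fun x v => by
    refine le_trans (mul_le_mul_of_nonneg_left ?_ ht.le) (hC.hess x v)
    exact pow_le_pow_left₀ (norm_nonneg _) (Submodule.norm_orthogonalProjectionOnto_apply_le _ _)
      2)).2.2 z ν
  obtain ⟨⟨⟨C', hC'⟩, -⟩, -⟩ := m1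
  have h1 := hC'.hess z ν
  rw [hs] at h1
  have h2 : cav S U (fun x => fderiv ℝ (fderiv ℝ U) x ν ν) z ≤ ‖ν‖ ^ 2 := by
    rw [← m3 z]
    obtain ⟨⟨C2, hC2⟩, hp2⟩ := m2 z
    have hgc : GC (fun x : E => fderiv ℝ (fderiv ℝ U) x (ν : E) (ν : E)) := by
      constructor
      · have h1 : Continuous (fderiv ℝ (fderiv ℝ U)) :=
          (hC.smooth.fderiv_right (m := 1) (by norm_num)).continuous_fderiv (by norm_num)
        exact (h1.clm_apply continuous_const).clm_apply continuous_const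
      · refine Gr.of_bdd (A := ‖(ν : E)‖ ^ 2) fun x => ?_
        rw [abs_of_nonneg (le_trans (by positivity) (hC.hess x ν))]
        exact hup x ν
    have hi := GC.integrable (MGA_gc_sh S hgc z) hC2
    have h3 := integral_mono hi (integrable_const (‖ν‖ ^ 2)) (fun x => by
      have := hup ((x : E) + (z : E)) (ν : E)
      simpa using this)
    simpa using h3
  have e : (fun y => D (ν : E) U y * D (ν : E) U y) = fun y => (D (ν : E) U y) ^ 2 := by
    funext y; ring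
  have h4 : 0 ≤ t * ‖ν‖ ^ 2 := by positivity
  rw [e]
  nlinarith

theorem MGA_expand {H : Type} [NormedAddCommGroup H] [InnerProductSpace ℝ H]
    [FiniteDimensional ℝ H] [MeasurableSpace H] [BorelSpace H] {W : H → ℝ} {t : ℝ} (h : PP W t)
    {F1 F2 V : H → ℝ} (h1 : GC F1) (h2 : GC F2) (hV : GC V) (p q : ℝ) :
    cv W (fun x => (F1 x - p) * (F2 x - q)) V =
      cv W (fun x => F1 x * F2 x) V - p * cv W F2 V - q * cv W F1 V := by
  have hp : IsProbabilityMeasure (mu W) := h.2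
  have e : (fun x => (F1 x - p) * (F2 x - q)) = fun x => ∑ k : Fin 4, (![1, -p, -q, p * q] k) *
      (![fun x => F1 x * F2 x, F2, F1, fun _ => 1] k) x := by
    funext x
    rw [Fin.sum_univ_four]
    simp
    ring
  rw [e, MGA_cv_sum h _ (F := ![fun x => F1 x * F2 x, F2, F1, fun _ => 1]) (by
    intro k
    fin_cases k
    · exact h1.mul h2
    · exact h2
    · exact h1
    · exact GC.const 1) hV, Fin.sum_univ_four]
  have h0 : cv W (fun _ => 1) V = 0 := by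
    unfold cv
    simp
  simp [h0]
  ring

section cc

variable {κ : Type} [Fintype κ] [DecidableEq κ] (c : OrthonormalBasis κ ℝ S)

theorem MGA_cm (hM : MGLStmt E) {U : E → ℝ} {t : ℝ} (hU : BP U t) (z : Sᗮ) (i j : κ) :
    cm c (fb S U z) i j = cav S U (fun y => li ((c i : S) : E) y * li ((c j : S) : E) y) z -
      cav S U (li ((c i : S) : E)) z * cav S U (li ((c j : S) : E)) z := by
  rw [← MGA_cv_fb S hM hU z (li ((c i : S) : E)) (li ((c j : S) : E))]
  simp only [MGA_li_fb]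
  rfl

theorem MGA_mn (hM : MGLStmt E) {U : E → ℝ} {t : ℝ} (hU : BP U t) (z : Sᗮ) (e : S) :
    mn (fb S U z) e = cav S U (li (e : E)) z := by
  obtain ⟨-, -, m3, -⟩ := hM U t hU S
  rw [← m3 z]
  simp only [MGA_li_fb]
  rfl

theorem MGA_gr_li (e : E) : Gr (fun x : E => ‖fderiv ℝ (li e) x‖) := by
  refine Gr.of_bdd (A := ‖innerSL ℝ e‖) fun x => ?_
  rw [(MGA_hfd_li e x).fderiv, abs_of_nonneg (norm_nonneg _)]

theorem MGA_gr_li2 (e e' : E) : Gr (fun x : E => ‖fderiv ℝ (fun y => li e y * li e' y) x‖) := by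
  have h1 : Gr (fun x : E => |li e x| * ‖innerSL ℝ e'‖ + |li e' x| * ‖innerSL ℝ e‖) :=
    ((MGA_gc_li e).abs.mul (GC.const _)).add ((MGA_gc_li e').abs.mul (GC.const _)) |>.2
  refine Gr.of_le h1 fun x => ?_
  have hfd : HasFDerivAt (fun y => li e y * li e' y)
      (li e x • innerSL ℝ e' + li e' x • innerSL ℝ e) x :=
    (MGA_hfd_li e x).mul (MGA_hfd_li e' x)
  rw [hfd.fderiv, abs_of_nonneg (norm_nonneg _),
    abs_of_nonneg (a := |li e x| * ‖innerSL ℝ e'‖ + |li e' x| * ‖innerSL ℝ e‖) (by positivity)]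
  refine (norm_add_le _ _).trans (le_of_eq ?_)
  rw [norm_smul, norm_smul]
  rfl

theorem MGA_D_mean (hM : MGLStmt E) {U : E → ℝ} {t : ℝ} (hU : BP U t) (e : S) :
    ContDiff ℝ 1 (cav S U (li (e : E))) ∧ ∀ z ν : Sᗮ, D ν (cav S U (li (e : E))) z =
      -cv (fb S U z) (li e) (fun x : S => D (ν : E) U ((x : E) + (z : E))) := by
  obtain ⟨⟨⟨C, hC⟩, hp⟩, hup⟩ := hU
  have hU' : BP U t := ⟨⟨⟨C, hC⟩, hp⟩, hup⟩
  obtain ⟨h1, h2⟩ := MGA_cav_diff S hC (MGA_cd_li (e : E)) (MGA_gc_li (e : E)).2 (MGA_gr_li (e : E))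
  refine ⟨h1, fun z ν => ?_⟩
  rw [h2 z ν]
  have e1 : (D (ν : E) (li (e : E))) = fun _ => 0 := by
    funext x
    rw [MGA_D_li, Submodule.inner_right_of_mem_orthogonal e.2 ν.2]
  have e2 : cav S U (fun _ => 0) z = 0 := by
    unfold cav pint
    simp
  have h3 := MGA_cv_fb S hM hU' z (li (e : E)) (D (ν : E) U)
  simp only [MGA_li_fb] at h3
  rw [e1, e2, ← h3]
  ring

theorem MGA_D_prod (hM : MGLStmt E) {U : E → ℝ} {t : ℝ} (hU : BP U t) (e e' : S) :
    ContDiff ℝ 1 (cav S U (fun y => li (e : E) y * li (e' : E) y)) ∧ ∀ z ν : Sᗮ,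
      D ν (cav S U (fun y => li (e : E) y * li (e' : E) y)) z =
      -cv (fb S U z) (fun x => li e x * li e' x)
        (fun x : S => D (ν : E) U ((x : E) + (z : E))) := by
  obtain ⟨⟨⟨C, hC⟩, hp⟩, hup⟩ := hU
  have hU' : BP U t := ⟨⟨⟨C, hC⟩, hp⟩, hup⟩
  obtain ⟨h1, h2⟩ := MGA_cav_diff S hC ((MGA_cd_li (e : E)).mul (MGA_cd_li (e' : E)))
    ((MGA_gc_li (e : E)).mul (MGA_gc_li (e' : E))).2 (MGA_gr_li2 (e : E) (e' : E))
  refine ⟨h1, fun z ν => ?_⟩
  rw [h2 z ν]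
  have e1 : (D (ν : E) (fun y => li (e : E) y * li (e' : E) y)) = fun _ => 0 := by
    funext x
    rw [D_mul (MGA_hfd_li _ x).differentiableAt (MGA_hfd_li _ x).differentiableAt, MGA_D_li,
      MGA_D_li, Submodule.inner_right_of_mem_orthogonal e.2 ν.2,
      Submodule.inner_right_of_mem_orthogonal e'.2 ν.2]
    ring
  have e2 : cav S U (fun _ => 0) z = 0 := by
    unfold cav pint
    simp
  have h3 := MGA_cv_fb S hM hU' z (fun y => li (e : E) y * li (e' : E) y) (D (ν : E) U)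
  simp only [MGA_li_fb] at h3
  rw [e1, e2, ← h3]
  ring

theorem MGA_D_cm (hM : MGLStmt E) {U : E → ℝ} {t : ℝ} (hU : BP U t) (i j : κ) :
    ContDiff ℝ 1 (fun z => cm c (fb S U z) i j) ∧ ∀ z ν : Sᗮ,
      D ν (fun z => cm c (fb S U z) i j) z = -cv (fb S U z) (MGA_G c (fb S U z) (i, j))
        (fun x : S => D (ν : E) U ((x : E) + (z : E))) := by
  obtain ⟨p1, p2⟩ := MGA_D_prod S hM hU (c i) (c j)
  obtain ⟨q1, q2⟩ := MGA_D_mean S hM hU (c i)
  obtain ⟨r1, r2⟩ := MGA_D_mean S hM hU (c j)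
  have e : (fun z => cm c (fb S U z) i j) = fun z =>
      cav S U (fun y => li ((c i : S) : E) y * li ((c j : S) : E) y) z -
      cav S U (li ((c i : S) : E)) z * cav S U (li ((c j : S) : E)) z :=
    funext fun z => MGA_cm S c hM hU z i j
  refine ⟨?_, fun z ν => ?_⟩
  · rw [e]
    exact p1.sub (q1.mul r1)
  · have d1 := p1.differentiable (by norm_num) z
    have d2 := q1.differentiable (by norm_num) z
    have d3 := r1.differentiable (by norm_num) z
    have hV : GC (D (ν : E) U) := by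
      obtain ⟨⟨⟨C, hC⟩, hp⟩, hup⟩ := hU
      exact P4bx.gc_D hC _
    obtain ⟨-, m2, -⟩ := hM U t hU S
    have hx := MGA_expand (m2 z) (MGA_gc_li (c i)) (MGA_gc_li (c j)) (MGA_gc_sh S hV z)
      (mn (fb S U z) (c i)) (mn (fb S U z) (c j))
    have e3 : MGA_G c (fb S U z) (i, j) = fun x => (li (c i) x - mn (fb S U z) (c i)) *
      (li (c j) x - mn (fb S U z) (c j)) := rfl
    have d4 : DifferentiableAt ℝ (fun z => cav S U (li ((c i : S) : E)) z *
        cav S U (li ((c j : S) : E)) z) z := d2.mul d3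
    rw [e3, hx, e, D_sub d1 d4, D_mul d2 d3, p2, q2, r2, MGA_mn S hM hU, MGA_mn S hM hU]
    ring

/-- (7.2) -/
theorem MGA_sum_cm (hB : ∀ (E : Type) [NormedAddCommGroup E] [InnerProductSpace ℝ E]
    [FiniteDimensional ℝ E] [MeasurableSpace E] [BorelSpace E], BASStmt E) (hM : MGLStmt E)
    {U : E → ℝ} {t : ℝ} (hU : BP U t) (z ν : Sᗮ) :
    ∑ i, ∑ j, (D ν (fun z => cm c (fb S U z) i j) z) ^ 2 ≤ 4 / t ^ 2 * ‖ν‖ ^ 2 := by
  obtain ⟨-, m2, -⟩ := hM U t hU S
  have hV : GC (D (ν : E) U) := by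
    obtain ⟨⟨⟨C, hC⟩, hp⟩, hup⟩ := hU
    exact P4bx.gc_D hC _
  have h := MGA_dual (hB S) (m2 z) (MGA_gc_sh S hV z) (MGA_var_V S hM hU z ν)
    (A := 4 / t ^ 2) (by positivity) (F := MGA_G c (fb S U z)) (MGA_gc_G c (fb S U z))
    (fun a => MGA_var_Q c (hB S) (m2 z) a)
  rw [Fintype.sum_prod_type] at h
  refine le_trans (le_of_eq ?_) h
  refine Finset.sum_congr rfl fun i _ => Finset.sum_congr rfl fun j _ => ?_
  rw [(MGA_D_cm S c hM hU i j).2 z ν, neg_sq]

theorem MGA_sum_mean (hB : ∀ (E : Type) [NormedAddCommGroup E] [InnerProductSpace ℝ E]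
    [FiniteDimensional ℝ E] [MeasurableSpace E] [BorelSpace E], BASStmt E) (hM : MGLStmt E)
    {U : E → ℝ} {t : ℝ} (hU : BP U t) (z ν : Sᗮ) :
    ∑ i, (D ν (cav S U (li ((c i : S) : E))) z) ^ 2 ≤ 1 / t * ‖ν‖ ^ 2 := by
  obtain ⟨-, m2, -⟩ := hM U t hU S
  have ht := MGA_pos (m2 z)
  have hV : GC (D (ν : E) U) := by
    obtain ⟨⟨⟨C, hC⟩, hp⟩, hup⟩ := hU
    exact P4bx.gc_D hC _
  have h := MGA_dual (hB S) (m2 z) (MGA_gc_sh S hV z) (MGA_var_V S hM hU z ν)
    (A := 1 / t) (by positivity) (F := fun i => li (c i)) (fun i => MGA_gc_li (c i))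
    (fun a => MGA_var_lin c (hB S) (m2 z) a)
  refine le_trans (le_of_eq ?_) h
  refine Finset.sum_congr rfl fun i _ => ?_
  rw [(MGA_D_mean S hM hU (c i)).2 z ν, neg_sq]

end cc

end two

section three

variable {E : Type} [NormedAddCommGroup E] [InnerProductSpace ℝ E]
    [FiniteDimensional ℝ E] [MeasurableSpace E] [BorelSpace E] (S : Submodule ℝ E)
    {κ : Type} [Fintype κ] [DecidableEq κ] (c : OrthonormalBasis κ ℝ S)

theorem MGA_cm_bd (hB : BASStmt S) {U : E → ℝ} {t : ℝ} (z : Sᗮ) (h : PP (fb S U z) t) (i j : κ) :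
    |cm c (fb S U z) i j| ≤ 1 / t := by
  have ht := MGA_pos h
  obtain ⟨-, -, -, h4, h5, -⟩ := hB
  have e1 := (h4 _ t h _ _ (MGA_gc_li (c i)) (MGA_gc_li (c j)))
  have e2 := h5 _ t h (c i)
  have e3 := h5 _ t h (c j)
  rw [c.norm_eq_one] at e2 e3
  have n2 := (h4 _ t h _ _ (MGA_gc_li (c i)) (MGA_gc_li (c i))).2.1
  have n3 := (h4 _ t h _ _ (MGA_gc_li (c j)) (MGA_gc_li (c j))).2.1
  have e4 : (cm c (fb S U z) i j) ^ 2 ≤ (1 / t) ^ 2 := by
    refine e1.1.trans ?_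
    have := mul_le_mul e2 e3 n3 (by positivity)
    refine this.trans (le_of_eq ?_)
    ring
  exact abs_le_of_sq_le_sq e4 (by positivity)

theorem MGA_quad (hM : MGLStmt E) {U : E → ℝ} {t : ℝ} (hU : BP U t) (z : Sᗮ) (a : κ → ℝ) :
    ∑ i, ∑ j, a i * a j * cm c (fb S U z) i j =
      cav S U (fun y => li ((∑ k, a k • c k : S) : E) y ^ 2) z -
        (cav S U (li ((∑ k, a k • c k : S) : E)) z) ^ 2 := by
  obtain ⟨-, m2, m3, -⟩ := hM U t hU S
  have h1 := MGA_cv_fb S hM hU z (li ((∑ k, a k • c k : S) : E)) (li ((∑ k, a k • c k : S) : E))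
  have h2 : (fun y => li ((∑ k, a k • c k : S) : E) y ^ 2) =
      fun y => li ((∑ k, a k • c k : S) : E) y * li ((∑ k, a k • c k : S) : E) y := by
    funext y; ring
  rw [h2, pow_two, ← h1]
  simp only [MGA_li_fb]
  have e : li (∑ k, a k • c k) = fun x => ∑ k, a k * li (c k) x :=
    funext fun x => MGA_li_sum c a x
  have hg : GC (fun x : S => ∑ k, a k * li (c k) x) := MGA_gc_sum a fun k => MGA_gc_li (c k)
  rw [e, MGA_cv_sum (m2 z) a (fun k => MGA_gc_li (c k)) hg]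
  refine Finset.sum_congr rfl fun i _ => ?_
  have h3 : cv (fb S U z) (li (c i)) (fun x => ∑ k, a k * li (c k) x) =
      ∑ j, a j * cm c (fb S U z) i j := by
    have hs : ∀ f g : S → ℝ, cv (fb S U z) f g = cv (fb S U z) g f := by
      intro f g
      unfold cv
      simp only [mul_comm]
    rw [hs, MGA_cv_sum (m2 z) a (fun k => MGA_gc_li (c k)) (MGA_gc_li (c i))]
    refine Finset.sum_congr rfl fun j _ => ?_
    rw [hs]
    rfl
  rw [h3, Finset.mul_sum]
  exact Finset.sum_congr rfl fun j _ => by ring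

/-- the average of the fibre covariances -/
noncomputable def MGA_B (U : E → ℝ) : Matrix κ κ ℝ :=
  Matrix.of fun i j => ∫ z, cm c (fb S U z) i j ∂(mu (mg S U))

theorem MGA_cm_cont (hM : MGLStmt E) {U : E → ℝ} {t : ℝ} (hU : BP U t) (i j : κ) :
    Continuous (fun z => cm c (fb S U z) i j) := (MGA_D_cm S c hM hU i j).1.continuous

theorem MGA_B_quad (hB : BASStmt S) (hM : MGLStmt E) {U : E → ℝ} {t : ℝ} (hU : BP U t)
    (hcov : CovLe U 5) (a : κ → ℝ) :
    ∑ i, ∑ j, a i * a j * MGA_B S c U i j ≤ 5 * ∑ i, a i ^ 2 := by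
  obtain ⟨m1, m2, m3, m4, -⟩ := hM U t hU S
  have hp1 : IsProbabilityMeasure (mu (mg S U)) := m1.1.2
  have hi : ∀ i j, Integrable (fun z => cm c (fb S U z) i j) (mu (mg S U)) := fun i j =>
    Integrable.of_bound (MGA_cm_cont S c hM hU i j).aestronglyMeasurable (1 / t)
      (Eventually.of_forall fun z => MGA_cm_bd S c hB z (m2 z) i j)
  set v : E := ((∑ k, a k • c k : S) : E) with hv
  have e1 : ∑ i, ∑ j, a i * a j * MGA_B S c U i j =
      ∫ z, (∑ i, ∑ j, a i * a j * cm c (fb S U z) i j) ∂(mu (mg S U)) := by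
    rw [integral_finsetSum _ fun i _ => integrable_finsetSum _ fun j _ => (hi i j).const_mul _]
    refine Finset.sum_congr rfl fun i _ => ?_
    rw [integral_finsetSum _ fun j _ => (hi i j).const_mul _]
    refine Finset.sum_congr rfl fun j _ => ?_
    rw [integral_const_mul]
    rfl
  have g1 : GC (li v) := MGA_gc_li v
  have g2 : GC (fun y => li v y ^ 2) := g1.sq
  obtain ⟨f1, f2, f3⟩ := m4 _ g1
  obtain ⟨k1, k2, k3⟩ := m4 _ g2
  have hnn : ∀ z, (cav S U (li v) z) ^ 2 ≤ cav S U (fun y => li v y ^ 2) z := by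
    intro z
    have hp2 : IsProbabilityMeasure (mu (fb S U z)) := (m2 z).2
    rw [← m3 z, ← m3 z]
    have := P4bx.var_nonneg (MGA_int (m2 z) (MGA_gc_sh S g1 z))
      (MGA_int (m2 z) (MGA_gc_sh S g1 z).sq)
    linarith
  have f4 : Integrable (fun z => (cav S U (li v) z) ^ 2) (mu (mg S U)) := by
    refine k2.mono' (f3.pow 2).aestronglyMeasurable (Eventually.of_forall fun z => ?_)
    rw [Real.norm_eq_abs, abs_of_nonneg (sq_nonneg _)]
    exact hnn z
  rw [e1]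
  simp only [MGA_quad S c hM hU _ a]
  rw [integral_sub k2 f4, ← k1]
  have h5 := P4bx.var_nonneg f2 f4
  rw [← f1] at h5
  have h6 := hcov v
  have h7 : ‖v‖ ^ 2 = ∑ k, a k ^ 2 := by
    rw [hv, ← MGA_norm_sum c a]
    rfl
  rw [h7] at h6
  unfold cv at h6
  have e2 : (fun x => li v x * li v x) = fun x => li v x ^ 2 := by funext x; ring
  rw [e2] at h6
  nlinarith

theorem MGA_fluct (hB : ∀ (E : Type) [NormedAddCommGroup E] [InnerProductSpace ℝ E]
    [FiniteDimensional ℝ E] [MeasurableSpace E] [BorelSpace E], BASStmt E) (hM : MGLStmt E)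
    {U : E → ℝ} {t : ℝ} (hU : BP U t) :
    ∫ z, (∑ i, ∑ j, (cm c (fb S U z) i j - MGA_B S c U i j) ^ 2) ∂(mu (mg S U)) ≤
      4 * Module.finrank ℝ Sᗮ / t ^ 3 := by
  obtain ⟨m1, m2, m3, m4, -⟩ := hM U t hU S
  have hp1 : IsProbabilityMeasure (mu (mg S U)) := m1.1.2
  have ht := MGA_pos m1.1
  set b := stdOrthonormalBasis ℝ Sᗮ with hb
  set k : ℝ := (Module.finrank ℝ Sᗮ : ℝ) with hk
  have hk0 : 0 ≤ k := Nat.cast_nonneg _
  have hcd : ∀ i j, ContDiff ℝ 1 (fun z => cm c (fb S U z) i j) := fun i j =>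
    (MGA_D_cm S c hM hU i j).1
  have hgc : ∀ i j, GC (fun z => cm c (fb S U z) i j) := fun i j =>
    ⟨(hcd i j).continuous, Gr.of_bdd fun z => MGA_cm_bd S c (hB S) z (m2 z) i j⟩
  have hsum : ∀ z, ∑ i, ∑ j, ‖fderiv ℝ (fun z => cm c (fb S U z) i j) z‖ ^ 2 ≤ 4 * k / t ^ 2 := by
    intro z
    have h1 : ∀ i j, ‖fderiv ℝ (fun z => cm c (fb S U z) i j) z‖ ^ 2 =
        ∑ l, (D (b l) (fun z => cm c (fb S U z) i j) z) ^ 2 := fun i j => nsq_clm b _
    simp only [h1]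
    have h2 : ∑ i, ∑ j, ∑ l, (D (b l) (fun z => cm c (fb S U z) i j) z) ^ 2 =
        ∑ l, ∑ i, ∑ j, (D (b l) (fun z => cm c (fb S U z) i j) z) ^ 2 := by
      have h3 : ∀ i, ∑ j, ∑ l, (D (b l) (fun z => cm c (fb S U z) i j) z) ^ 2 =
          ∑ l, ∑ j, (D (b l) (fun z => cm c (fb S U z) i j) z) ^ 2 := fun i => Finset.sum_comm
      simp only [h3]
      rw [Finset.sum_comm]
    rw [h2]
    have h4 : ∀ l, ∑ i, ∑ j, (D (b l) (fun z => cm c (fb S U z) i j) z) ^ 2 ≤ 4 / t ^ 2 := by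
      intro l
      have := MGA_sum_cm S c hB hM hU z (b l)
      rwa [b.norm_eq_one, one_pow, mul_one] at this
    refine (Finset.sum_le_sum fun l _ => h4 l).trans (le_of_eq ?_)
    rw [Finset.sum_const, Finset.card_univ, Fintype.card_fin, nsmul_eq_mul, ← hk]
    ring
  have hone : ∀ i j z, ‖fderiv ℝ (fun z => cm c (fb S U z) i j) z‖ ^ 2 ≤ 4 * k / t ^ 2 := by
    intro i j z
    refine le_trans ?_ (hsum z)
    refine le_trans (Finset.single_le_sum (f := fun j => ‖fderiv ℝ (fun z =>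
      cm c (fb S U z) i j) z‖ ^ 2) (fun j _ => sq_nonneg _) (Finset.mem_univ j)) ?_
    exact Finset.single_le_sum (f := fun i => ∑ j, ‖fderiv ℝ (fun z =>
      cm c (fb S U z) i j) z‖ ^ 2) (fun i _ => Finset.sum_nonneg fun j _ => sq_nonneg _)
      (Finset.mem_univ i)
  have hgr : ∀ i j, Gr (fun z => ‖fderiv ℝ (fun z => cm c (fb S U z) i j) z‖) := by
    intro i j
    have key : ∀ x : ℝ, x ^ 2 ≤ 4 * k / t ^ 2 → x ≤ 1 + 4 * k / t ^ 2 := fun x hx => by
      nlinarith [sq_nonneg (x - 1)]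
    refine Gr.of_bdd (A := 1 + 4 * k / t ^ 2) fun z => ?_
    have h1 := key _ (hone i j z)
    have h2 : 0 ≤ ‖fderiv ℝ (fun z => cm c (fb S U z) i j) z‖ :=
      ContinuousLinearMap.opNorm_nonneg _
    exact abs_le.2 ⟨(neg_nonpos.2 (h2.trans h1)).trans h2, h1⟩
  have hfi : ∀ i j, Integrable (fun z => ‖fderiv ℝ (fun z => cm c (fb S U z) i j) z‖ ^ 2)
      (mu (mg S U)) := by
    intro i j
    refine Integrable.of_bound
      (((hcd i j).continuous_fderiv (by norm_num)).norm.pow 2).aestronglyMeasurable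
      (4 * k / t ^ 2) (Eventually.of_forall fun z => ?_)
    rw [Real.norm_eq_abs, abs_of_nonneg (sq_nonneg _)]
    exact hone i j z
  have hvar : ∀ i j, ∫ z, (cm c (fb S U z) i j - MGA_B S c U i j) ^ 2 ∂(mu (mg S U)) ≤
      1 / t * ∫ z, ‖fderiv ℝ (fun z => cm c (fb S U z) i j) z‖ ^ 2 ∂(mu (mg S U)) := by
    intro i j
    refine le_trans (le_of_eq ?_) (MGA_poin (hB _) m1.1 (hcd i j) (hgc i j).2 (hgr i j))
    obtain ⟨-, -, -, h4, -⟩ := hB Sᗮ
    rw [(h4 _ t m1.1 _ _ (hgc i j) (hgc i j)).2.2.2]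
    refine integral_congr_ae (Eventually.of_forall fun z => ?_)
    simp only [MGA_B, Matrix.of_apply]
    ring
  have hsi : ∀ i j, Integrable (fun z => (cm c (fb S U z) i j - MGA_B S c U i j) ^ 2)
      (mu (mg S U)) := fun i j => MGA_int m1.1 ((hgc i j).sub (GC.const _)).sq
  rw [integral_finsetSum _ fun i _ => integrable_finsetSum _ fun j _ => hsi i j]
  have h1 : ∀ i, ∫ z, (∑ j, (cm c (fb S U z) i j - MGA_B S c U i j) ^ 2) ∂(mu (mg S U)) ≤
      ∑ j, 1 / t * ∫ z, ‖fderiv ℝ (fun z => cm c (fb S U z) i j) z‖ ^ 2 ∂(mu (mg S U)) := by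
    intro i
    rw [integral_finsetSum _ fun j _ => hsi i j]
    exact Finset.sum_le_sum fun j _ => hvar i j
  refine (Finset.sum_le_sum fun i _ => h1 i).trans ?_
  have h2 : ∑ i, ∑ j, 1 / t * ∫ z, ‖fderiv ℝ (fun z => cm c (fb S U z) i j) z‖ ^ 2
      ∂(mu (mg S U)) = 1 / t * ∫ z, (∑ i, ∑ j, ‖fderiv ℝ (fun z => cm c (fb S U z) i j) z‖ ^ 2)
      ∂(mu (mg S U)) := by
    rw [integral_finsetSum _ fun i _ => integrable_finsetSum _ fun j _ => hfi i j, Finset.mul_sum]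
    refine Finset.sum_congr rfl fun i _ => ?_
    rw [integral_finsetSum _ fun j _ => hfi i j, Finset.mul_sum]
  rw [h2]
  have h3 : ∫ z, (∑ i, ∑ j, ‖fderiv ℝ (fun z => cm c (fb S U z) i j) z‖ ^ 2) ∂(mu (mg S U)) ≤
      4 * k / t ^ 2 := by
    have := integral_mono (μ := mu (mg S U))
      (integrable_finsetSum _ fun i _ => integrable_finsetSum _ fun j _ => hfi i j)
      (integrable_const (4 * k / t ^ 2)) hsum
    simpa using this
  calc 1 / t * ∫ z, (∑ i, ∑ j, ‖fderiv ℝ (fun z => cm c (fb S U z) i j) z‖ ^ 2) ∂(mu (mg S U))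
      ≤ 1 / t * (4 * k / t ^ 2) := mul_le_mul_of_nonneg_left h3 (by positivity)
    _ = 4 * k / t ^ 3 := by field_simp

theorem MGA_mvt {H : Type} [NormedAddCommGroup H] [InnerProductSpace ℝ H] {f : H → ℝ} {M : ℝ}
    (hM : 0 ≤ M) (hf : ContDiff ℝ 1 f) (hb : ∀ x, ‖fderiv ℝ f x‖ ≤ M) : GC f := by
  refine ⟨hf.continuous, |f 0| + M, 1, fun x => ?_⟩
  have h := convex_univ.norm_image_sub_le_of_norm_fderiv_le (𝕜 := ℝ) (f := f) (C := M)
    (fun x _ => hf.differentiable (by norm_num) x) (fun x _ => hb x) (mem_univ (0 : H))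
    (mem_univ x)
  rw [sub_zero, Real.norm_eq_abs] at h
  have h1 := Real.add_one_le_exp ‖x‖
  have h2 : |f x| ≤ |f x - f 0| + |f 0| := by
    have := abs_add_le (f x - f 0) (f 0)
    simpa using this
  rw [one_mul]
  have h3 : 0 ≤ |f 0| * ‖x‖ := by positivity
  calc |f x| ≤ (|f 0| + M) * (‖x‖ + 1) := by nlinarith
    _ ≤ (|f 0| + M) * Real.exp ‖x‖ := mul_le_mul_of_nonneg_left h1 (by positivity)

/-- the centred fibre means -/
noncomputable def MGA_A (U : E → ℝ) (i : κ) (z : Sᗮ) : ℝ :=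
  cav S U (li ((c i : S) : E)) z - mn U (c i)

theorem MGA_A_cd (hM : MGLStmt E) {U : E → ℝ} {t : ℝ} (hU : BP U t) (i : κ) :
    ContDiff ℝ 1 (MGA_A S c U i) := by
  unfold MGA_A
  exact (MGA_D_mean S hM hU (c i)).1.sub contDiff_const

theorem MGA_A_D (hM : MGLStmt E) {U : E → ℝ} {t : ℝ} (hU : BP U t) (i : κ) (z ν : Sᗮ) :
    D ν (MGA_A S c U i) z = D ν (cav S U (li ((c i : S) : E))) z := by
  unfold D MGA_A
  rw [fderiv_sub_const]

theorem MGA_A_sum (hB : ∀ (E : Type) [NormedAddCommGroup E] [InnerProductSpace ℝ E]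
    [FiniteDimensional ℝ E] [MeasurableSpace E] [BorelSpace E], BASStmt E) (hM : MGLStmt E)
    {U : E → ℝ} {t : ℝ} (hU : BP U t) (z ν : Sᗮ) :
    ∑ i, (D ν (MGA_A S c U i) z) ^ 2 ≤ 1 / t * ‖ν‖ ^ 2 := by
  simp only [MGA_A_D S c hM hU]
  exact MGA_sum_mean S c hB hM hU z ν

theorem MGA_A_gr (hB : ∀ (E : Type) [NormedAddCommGroup E] [InnerProductSpace ℝ E]
    [FiniteDimensional ℝ E] [MeasurableSpace E] [BorelSpace E], BASStmt E) (hM : MGLStmt E)
    {U : E → ℝ} {t : ℝ} (hU : BP U t) (i : κ) (z : Sᗮ) :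
    ‖fderiv ℝ (MGA_A S c U i) z‖ ≤ Real.sqrt (1 / t) := by
  have ht := MGA_pos hU.1
  refine ContinuousLinearMap.opNorm_le_bound _ (Real.sqrt_nonneg _) fun ν => ?_
  rw [Real.norm_eq_abs]
  refine abs_le_of_sq_le_sq ?_ (by positivity)
  have h1 : (D ν (MGA_A S c U i) z) ^ 2 ≤ 1 / t * ‖ν‖ ^ 2 :=
    (Finset.single_le_sum (f := fun i => (D ν (MGA_A S c U i) z) ^ 2)
      (fun i _ => sq_nonneg _) (Finset.mem_univ i)).trans (MGA_A_sum S c hB hM hU z ν)
  have h2 : (Real.sqrt (1 / t) * ‖ν‖) ^ 2 = 1 / t * ‖ν‖ ^ 2 := by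
    rw [mul_pow, Real.sq_sqrt (by positivity)]
  rw [h2]
  exact h1

theorem MGA_A_gc (hB : ∀ (E : Type) [NormedAddCommGroup E] [InnerProductSpace ℝ E]
    [FiniteDimensional ℝ E] [MeasurableSpace E] [BorelSpace E], BASStmt E) (hM : MGLStmt E)
    {U : E → ℝ} {t : ℝ} (hU : BP U t) (i : κ) : GC (MGA_A S c U i) :=
  MGA_mvt (Real.sqrt_nonneg _) (MGA_A_cd S c hM hU i) (MGA_A_gr S c hB hM hU i)

theorem MGA_A_mean (hB : ∀ (E : Type) [NormedAddCommGroup E] [InnerProductSpace ℝ E]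
    [FiniteDimensional ℝ E] [MeasurableSpace E] [BorelSpace E], BASStmt E) (hM : MGLStmt E)
    {U : E → ℝ} {t : ℝ} (hU : BP U t) (i : κ) : ∫ z, MGA_A S c U i z ∂(mu (mg S U)) = 0 := by
  obtain ⟨m1, m2, m3, m4, -⟩ := hM U t hU S
  have hp1 : IsProbabilityMeasure (mu (mg S U)) := m1.1.2
  obtain ⟨f1, f2, f3⟩ := m4 _ (MGA_gc_li ((c i : S) : E))
  unfold MGA_A
  rw [integral_sub f2 (integrable_const _), ← f1]
  simp [mn]

theorem MGA_A_var (hB : ∀ (E : Type) [NormedAddCommGroup E] [InnerProductSpace ℝ E]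
    [FiniteDimensional ℝ E] [MeasurableSpace E] [BorelSpace E], BASStmt E) (hM : MGLStmt E)
    {U : E → ℝ} {t : ℝ} (hU : BP U t) :
    ∑ i, ∫ z, (MGA_A S c U i z) ^ 2 ∂(mu (mg S U)) ≤ Module.finrank ℝ Sᗮ / t ^ 2 := by
  obtain ⟨m1, m2, m3, m4, -⟩ := hM U t hU S
  have hp1 : IsProbabilityMeasure (mu (mg S U)) := m1.1.2
  have ht := MGA_pos m1.1
  set b := stdOrthonormalBasis ℝ Sᗮ with hb
  set k : ℝ := (Module.finrank ℝ Sᗮ : ℝ) with hk
  have hcd := MGA_A_cd S c hM hU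
  have hgc := MGA_A_gc S c hB hM hU
  have hb1 := MGA_A_gr S c hB hM hU
  have hone : ∀ i z, ‖fderiv ℝ (MGA_A S c U i) z‖ ^ 2 ≤ 1 / t := by
    intro i z
    have := pow_le_pow_left₀ (ContinuousLinearMap.opNorm_nonneg _) (hb1 i z) 2
    rwa [Real.sq_sqrt (by positivity)] at this
  have hsum : ∀ z, ∑ i, ‖fderiv ℝ (MGA_A S c U i) z‖ ^ 2 ≤ k / t := by
    intro z
    have h1 : ∀ i, ‖fderiv ℝ (MGA_A S c U i) z‖ ^ 2 =
        ∑ l, (D (b l) (MGA_A S c U i) z) ^ 2 := fun i => nsq_clm b _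
    simp only [h1]
    rw [Finset.sum_comm]
    have h4 : ∀ l, ∑ i, (D (b l) (MGA_A S c U i) z) ^ 2 ≤ 1 / t := by
      intro l
      have := MGA_A_sum S c hB hM hU z (b l)
      rwa [b.norm_eq_one, one_pow, mul_one] at this
    refine (Finset.sum_le_sum fun l _ => h4 l).trans (le_of_eq ?_)
    rw [Finset.sum_const, Finset.card_univ, Fintype.card_fin, nsmul_eq_mul, ← hk]
    ring
  have hgr : ∀ i, Gr (fun z => ‖fderiv ℝ (MGA_A S c U i) z‖) := by
    intro i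
    refine Gr.of_bdd (A := Real.sqrt (1 / t)) fun z => ?_
    exact (abs_of_nonneg (ContinuousLinearMap.opNorm_nonneg _)).le.trans (hb1 i z)
  have hfi : ∀ i, Integrable (fun z => ‖fderiv ℝ (MGA_A S c U i) z‖ ^ 2) (mu (mg S U)) := by
    intro i
    refine Integrable.of_bound
      (((hcd i).continuous_fderiv (by norm_num)).norm.pow 2).aestronglyMeasurable
      (1 / t) (Eventually.of_forall fun z => ?_)
    rw [Real.norm_eq_abs, abs_of_nonneg (sq_nonneg _)]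
    exact hone i z
  have hvar : ∀ i, ∫ z, (MGA_A S c U i z) ^ 2 ∂(mu (mg S U)) ≤
      1 / t * ∫ z, ‖fderiv ℝ (MGA_A S c U i) z‖ ^ 2 ∂(mu (mg S U)) := by
    intro i
    refine le_trans (le_of_eq ?_) (MGA_poin (hB _) m1.1 (hcd i) (hgc i).2 (hgr i))
    obtain ⟨-, -, -, h4, -⟩ := hB Sᗮ
    rw [(h4 _ t m1.1 _ _ (hgc i) (hgc i)).2.2.2, MGA_A_mean S c hB hM hU i]
    refine integral_congr_ae (Eventually.of_forall fun z => ?_)
    simp only
    ring
  refine (Finset.sum_le_sum fun i _ => hvar i).trans ?_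
  rw [← Finset.mul_sum, ← integral_finsetSum _ fun i _ => hfi i]
  have h3 : ∫ z, (∑ i, ‖fderiv ℝ (MGA_A S c U i) z‖ ^ 2) ∂(mu (mg S U)) ≤ k / t := by
    have := integral_mono (μ := mu (mg S U)) (integrable_finsetSum _ fun i _ => hfi i)
      (integrable_const (k / t)) hsum
    simpa using this
  calc 1 / t * ∫ z, (∑ i, ‖fderiv ℝ (MGA_A S c U i) z‖ ^ 2) ∂(mu (mg S U))
      ≤ 1 / t * (k / t) := mul_le_mul_of_nonneg_left h3 (by positivity)
    _ = k / t ^ 2 := by field_simp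

theorem MGA_three (hB : ∀ (E : Type) [NormedAddCommGroup E] [InnerProductSpace ℝ E]
    [FiniteDimensional ℝ E] [MeasurableSpace E] [BorelSpace E], BASStmt E) (hM : MGLStmt E)
    {U : E → ℝ} {t : ℝ} (hU : BP U t) (hcov : CovLe U 5) (m : κ → ℝ) (β : ℝ)
    (hm : ∀ i, |m i| ≤ β) (hβ : 0 ≤ β) (θ : Sᗮ) (hθ : ‖θ‖ = 1) :
    |cv (mg S U) (li θ) (fun z => ∑ i, m i * (cav S U (li ((c i : S) : E)) z - mn U (c i)) ^ 2)| ≤
      2 * Real.sqrt 5 * Real.sqrt (Module.finrank ℝ Sᗮ) * β / t ^ 2 := by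
  obtain ⟨m1, m2, m3, m4, m5, m6⟩ := hM U t hU S
  have hp1 : IsProbabilityMeasure (mu (mg S U)) := m1.1.2
  have ht := MGA_pos m1.1
  set k : ℝ := (Module.finrank ℝ Sᗮ : ℝ) with hk
  have hk0 : 0 ≤ k := Nat.cast_nonneg _
  have hcd := MGA_A_cd S c hM hU
  have hgc := MGA_A_gc S c hB hM hU
  have hcov' := m6 5 hcov θ
  rw [hθ, one_pow, mul_one] at hcov'
  set Q : Sᗮ → ℝ := fun z => ∑ i, m i * (MGA_A S c U i z) ^ 2 with hQ
  have hQe : (fun z => ∑ i, m i * (cav S U (li ((c i : S) : E)) z - mn U (c i)) ^ 2) = Q := rfl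
  rw [hQe]
  have hQcd : ContDiff ℝ 1 Q := ContDiff.sum fun i _ => contDiff_const.mul ((hcd i).pow 2)
  have hQgc : GC Q := MGA_gc_sum m fun i => (hgc i).sq
  have hQD : ∀ z ν, D ν Q z = ∑ i, (2 * m i * MGA_A S c U i z) * D ν (MGA_A S c U i) z := by
    intro z ν
    have h1 : HasFDerivAt Q (∑ i, m i • ((2 * MGA_A S c U i z) •
        fderiv ℝ (MGA_A S c U i) z)) z := by
      refine HasFDerivAt.fun_sum fun i _ => ?_
      have h2 : HasFDerivAt (MGA_A S c U i) (fderiv ℝ (MGA_A S c U i) z) z :=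
        ((hcd i).differentiable (by norm_num) z).hasFDerivAt
      have h3 := (h2.mul h2).const_mul (m i)
      have e1 : (fun z => m i * MGA_A S c U i z ^ 2) =
          fun z => m i * (MGA_A S c U i * MGA_A S c U i) z := by
        funext z
        simp only [Pi.mul_apply]
        ring
      rw [e1]
      have e2 : (2 * MGA_A S c U i z) • fderiv ℝ (MGA_A S c U i) z =
          MGA_A S c U i z • fderiv ℝ (MGA_A S c U i) z +
            MGA_A S c U i z • fderiv ℝ (MGA_A S c U i) z := by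
        rw [two_mul, add_smul]
      rw [e2]
      exact h3
    unfold D
    rw [h1.fderiv]
    simp only [sum_apply, smul_apply, smul_eq_mul]
    exact Finset.sum_congr rfl fun i _ => by ring
  have hQD2 : ∀ z ν, (D ν Q z) ^ 2 ≤ 4 * β ^ 2 / t * (∑ i, (MGA_A S c U i z) ^ 2) * ‖ν‖ ^ 2 := by
    intro z ν
    rw [hQD z ν]
    refine (Finset.sum_mul_sq_le_sq_mul_sq _ _ _).trans ?_
    have h1 : ∑ i, (2 * m i * MGA_A S c U i z) ^ 2 ≤ 4 * β ^ 2 * ∑ i, (MGA_A S c U i z) ^ 2 := by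
      rw [Finset.mul_sum]
      refine Finset.sum_le_sum fun i _ => ?_
      have h2 : (m i) ^ 2 ≤ β ^ 2 := sq_le_sq' (by linarith [(abs_le.1 (hm i)).1])
        (abs_le.1 (hm i)).2
      calc (2 * m i * MGA_A S c U i z) ^ 2 = 4 * (m i) ^ 2 * (MGA_A S c U i z) ^ 2 := by ring
        _ ≤ 4 * β ^ 2 * (MGA_A S c U i z) ^ 2 :=
          mul_le_mul_of_nonneg_right (by linarith) (sq_nonneg _)
    have h2 := MGA_A_sum S c hB hM hU z ν
    have h3 : 0 ≤ ∑ i, (MGA_A S c U i z) ^ 2 := Finset.sum_nonneg fun i _ => sq_nonneg _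
    refine (mul_le_mul h1 h2 (Finset.sum_nonneg fun i _ => sq_nonneg _)
      (by positivity)).trans (le_of_eq ?_)
    field_simp
  have hQn : ∀ z, ‖fderiv ℝ Q z‖ ^ 2 ≤ 4 * β ^ 2 / t * (∑ i, (MGA_A S c U i z) ^ 2) := by
    intro z
    have h3 : 0 ≤ ∑ i, (MGA_A S c U i z) ^ 2 := Finset.sum_nonneg fun i _ => sq_nonneg _
    set M := 4 * β ^ 2 / t * (∑ i, (MGA_A S c U i z) ^ 2) with hMd
    have hM0 : 0 ≤ M := by positivity
    have h4 : ‖fderiv ℝ Q z‖ ≤ Real.sqrt M := by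
      refine ContinuousLinearMap.opNorm_le_bound _ (Real.sqrt_nonneg _) fun ν => ?_
      rw [Real.norm_eq_abs]
      refine abs_le_of_sq_le_sq ?_ (by positivity)
      have h2 : (Real.sqrt M * ‖ν‖) ^ 2 = M * ‖ν‖ ^ 2 := by
        rw [mul_pow, Real.sq_sqrt hM0]
      rw [h2]
      exact hQD2 z ν
    have := pow_le_pow_left₀ (ContinuousLinearMap.opNorm_nonneg _) h4 2
    rwa [Real.sq_sqrt hM0] at this
  have hg2 : GC (fun z => 1 + 4 * β ^ 2 / t * (∑ i, (MGA_A S c U i z) ^ 2)) :=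
    (GC.const 1).add ((GC.const _).mul (GC.sum fun i => (hgc i).sq))
  have hg3 : GC (fun z => 4 * β ^ 2 / t * (∑ i, (MGA_A S c U i z) ^ 2)) :=
    (GC.const _).mul (GC.sum fun i => (hgc i).sq)
  have hQgr : Gr (fun z => ‖fderiv ℝ Q z‖) := by
    refine Gr.of_le hg2.2 fun z => ?_
    have h3 : 0 ≤ ∑ i, (MGA_A S c U i z) ^ 2 := Finset.sum_nonneg fun i _ => sq_nonneg _
    have h5 : ‖fderiv ℝ Q z‖ ≤ 1 + ‖fderiv ℝ Q z‖ ^ 2 := by
      nlinarith [sq_nonneg (‖fderiv ℝ Q z‖ - 1)]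
    refine (abs_of_nonneg (ContinuousLinearMap.opNorm_nonneg _)).le.trans ?_
    refine h5.trans (le_trans ?_ (le_abs_self _))
    have := hQn z
    linarith
  have hvQ : cv (mg S U) Q Q ≤ 4 * β ^ 2 * k / t ^ 4 := by
    refine (MGA_poin (hB _) m1.1 hQcd hQgc.2 hQgr).trans ?_
    have i1 : Integrable (fun z => 4 * β ^ 2 / t * (∑ i, (MGA_A S c U i z) ^ 2))
        (mu (mg S U)) := MGA_int m1.1 hg3
    have i2 : Integrable (fun z => ‖fderiv ℝ Q z‖ ^ 2) (mu (mg S U)) := by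
      refine i1.mono' ((hQcd.continuous_fderiv (by norm_num)).norm.pow 2).aestronglyMeasurable
        (Eventually.of_forall fun z => ?_)
      rw [Real.norm_eq_abs, abs_of_nonneg (sq_nonneg _)]
      exact hQn z
    have h1 : ∫ z, ‖fderiv ℝ Q z‖ ^ 2 ∂(mu (mg S U)) ≤ 4 * β ^ 2 / t * (k / t ^ 2) := by
      refine (integral_mono i2 i1 hQn).trans ?_
      rw [integral_const_mul, integral_finsetSum _ fun i _ => MGA_int m1.1 (hgc i).sq]
      exact mul_le_mul_of_nonneg_left (MGA_A_var S c hB hM hU) (by positivity)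
    calc 1 / t * ∫ z, ‖fderiv ℝ Q z‖ ^ 2 ∂(mu (mg S U)) ≤
        1 / t * (4 * β ^ 2 / t * (k / t ^ 2)) := mul_le_mul_of_nonneg_left h1 (by positivity)
      _ = 4 * β ^ 2 * k / t ^ 4 := by field_simp
  obtain ⟨-, -, -, b4, -⟩ := hB Sᗮ
  have hcs := (b4 _ t m1.1 _ _ (MGA_gc_li θ) hQgc).1
  have hQQ := (b4 _ t m1.1 _ _ hQgc hQgc).2.1
  refine abs_le_of_sq_le_sq ?_ (by positivity)
  refine hcs.trans ((mul_le_mul hcov' hvQ hQQ (by norm_num)).trans (le_of_eq ?_))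
  rw [div_pow, mul_pow, mul_pow, mul_pow, Real.sq_sqrt (by norm_num), Real.sq_sqrt hk0]
  ring

end three

/-- module MGA -/
theorem mga_thm (E : Type) [NormedAddCommGroup E] [InnerProductSpace ℝ E]
    [FiniteDimensional ℝ E] [MeasurableSpace E] [BorelSpace E]
    (hB : ∀ (E : Type) [NormedAddCommGroup E] [InnerProductSpace ℝ E]
      [FiniteDimensional ℝ E] [MeasurableSpace E] [BorelSpace E], BASStmt E)
    (hM : MGLStmt E) : MGAStmt E := by
  intro U t hU ht1 hcov S κ _ _ c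
  obtain ⟨m1, m2, m3, m4, -⟩ := hM U t hU S
  refine ⟨fun i j => ⟨MGA_cm_cont S c hM hU i j, fun z => MGA_cm_bd S c (hB S) z (m2 z) i j⟩,
    ⟨MGA_B S c U, ?_, ?_, MGA_fluct S c hB hM hU⟩,
    fun m β hm hβ θ hθ => MGA_three S c hB hM hU hcov m β hm hβ θ hθ⟩
  · refine Matrix.IsHermitian.ext fun i j => ?_
    simp only [MGA_B, Matrix.of_apply, star_trivial]
    refine integral_congr_ae (Eventually.of_forall fun z => ?_)
    simp only [cm, Matrix.of_apply]
    unfold cv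
    simp only [mul_comm]
  · have hherm : (MGA_B S c U).IsHermitian := by
      refine Matrix.IsHermitian.ext fun i j => ?_
      simp only [MGA_B, Matrix.of_apply, star_trivial]
      refine integral_congr_ae (Eventually.of_forall fun z => ?_)
      simp only [cm, Matrix.of_apply]
      unfold cv
      simp only [mul_comm]
    refine Matrix.PosSemidef.of_dotProduct_mulVec_nonneg ?_ fun a => ?_
    · refine Matrix.IsHermitian.sub ?_ hherm
      refine Matrix.IsHermitian.ext fun i j => ?_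
      simp [Matrix.smul_apply, Matrix.one_apply, eq_comm]
    · have h1 := MGA_B_quad S c (hB S) hM hU hcov a
      have h2 : dotProduct (star a) (((5:ℝ) • (1 : Matrix κ κ ℝ) - MGA_B S c U).mulVec a) =
          5 * ∑ i, a i ^ 2 - ∑ i, ∑ j, a i * a j * MGA_B S c U i j := by
        rw [Matrix.sub_mulVec, dotProduct_sub, Matrix.smul_mulVec, Matrix.one_mulVec]
        simp only [dotProduct, Matrix.mulVec, Pi.star_apply, star_trivial, Pi.smul_apply,
          smul_eq_mul, Finset.mul_sum]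
        congr 1
        · exact Finset.sum_congr rfl fun i _ => by ring
        · exact Finset.sum_congr rfl fun i _ => Finset.sum_congr rfl fun j _ => by ring
      rw [h2]
      linarith

end Pool.Agent.H73.KG
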